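import Pool.Agent.Lib_MP_49858b_nt.Renewal

/-!
# The dual function of the ramp kernel and its norm
-/

set_option autoImplicit false

open Finset

namespace MP49858b

theorem sum_Ico_Z (φ : ℤ → ℝ) {a b c : ℤ} (hab : a ≤ b) (hbc : b ≤ c) :
    ∑ i ∈ Ico a b, φ i + ∑ i ∈ Ico b c, φ i = ∑ i ∈ Ico a c, φ i := by
  rw [← Finset.Ico_union_Ico_eq_Ico hab hbc,
    Finset.sum_union (Finset.Ico_disjoint_Ico_consecutive a b c)]

/-- the ramp -/
noncomputable def w (u : ℕ) (t : ℤ) : ℝ := if 0 ≤ t ∧ t < u then (u : ℝ) - t else 0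

/-- the dual function -/
noncomputable def G (u n : ℕ) (y : ℤ) : ℝ :=
  ∑ r ∈ range u, ((u : ℝ) - r) * f u ((n : ℤ) - y + r)

theorem w_nonneg (u : ℕ) (t : ℤ) : 0 ≤ w u t := by
  unfold w
  split_ifs with h
  · have h2 : (t : ℝ) ≤ u := by exact_mod_cast h.2.le
    linarith
  · exact le_rfl

theorem sum_w (u : ℕ) (a : ℤ) (S : Finset ℤ) (hS : ∀ s ∈ range u, a + (s : ℤ) ∈ S) (Φ : ℤ → ℝ) :
    ∑ y ∈ S, w u (y - a) * Φ y = ∑ s ∈ range u, ((u : ℝ) - s) * Φ (a + s) := by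
  classical
  have h1 : ∑ s ∈ range u, ((u : ℝ) - s) * Φ (a + s)
      = ∑ y ∈ (range u).image (fun s : ℕ => a + (s : ℤ)), w u (y - a) * Φ y := by
    rw [Finset.sum_image]
    · refine Finset.sum_congr rfl (fun s hs => ?_)
      rw [Finset.mem_range] at hs
      unfold w
      rw [if_pos (by constructor <;> omega)]
      congr 2
      push_cast
      ring
    · intro s _ t _ h
      have h' : a + (s : ℤ) = a + (t : ℤ) := h
      omega
  rw [h1]
  symm
  refine Finset.sum_subset (fun y hy => ?_) (fun y _ hy => ?_)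
  · obtain ⟨s, hs, rfl⟩ := Finset.mem_image.1 hy
    exact hS s hs
  · unfold w
    rw [if_neg, zero_mul]
    rintro ⟨h2, h3⟩
    apply hy
    rw [Finset.mem_image]
    exact ⟨(y - a).toNat, by rw [Finset.mem_range]; omega, by omega⟩

theorem G_conv (u n : ℕ) (hu : 0 < u) {a : ℤ} (ha : a ≤ n) :
    ∑ s ∈ range u, ((u : ℝ) - s) * G u n (a + s) = (u : ℝ) * (u + 1) / 2 := by
  unfold G
  simp only [Finset.mul_sum]
  rw [Finset.sum_comm]
  rw [← sum_weights]
  refine Finset.sum_congr rfl (fun r _ => ?_)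
  have h1 := conv_eq u hu (i := (n : ℤ) - a + r) (by omega)
  calc ∑ x ∈ range u, ((u : ℝ) - x) * (((u : ℝ) - r) * f u ((n : ℤ) - (a + x) + r))
      = ((u : ℝ) - r) * ∑ x ∈ range u, ((u : ℝ) - x) * f u ((n : ℤ) - a + r - x) := by
        rw [Finset.mul_sum]
        refine Finset.sum_congr rfl (fun x _ => ?_)
        rw [show (n : ℤ) - (a + x) + r = (n : ℤ) - a + r - x from by ring]
        ring
    _ = (u : ℝ) - r := by rw [h1, mul_one]

theorem G_sub_one (u n : ℕ) (hu : 0 < u) (y : ℤ) :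
    G u n y - 1 = ∑ r ∈ range u, ((u : ℝ) - r) * g u ((n : ℤ) - y + r) := by
  unfold G g
  simp only [mul_sub, Finset.sum_sub_distrib]
  rw [← Finset.sum_mul, sum_weights, mul_comm ((u : ℝ) * (u + 1) / 2), cc_mul u hu]

theorem G_le (u n : ℕ) (hu : 0 < u) {ε : ℝ}
    (hε : ∀ i : ℤ, (n : ℤ) - u + 1 ≤ i → |g u i| ≤ ε) {y : ℤ} (hy : y < u) :
    G u n y ≤ 1 + (u : ℝ) * (u + 1) / 2 * ε := by
  have h1 := G_sub_one u n hu y
  have h2 : ∑ r ∈ range u, ((u : ℝ) - r) * g u ((n : ℤ) - y + r)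
      ≤ ∑ r ∈ range u, ((u : ℝ) - r) * ε := by
    refine Finset.sum_le_sum (fun r hr => ?_)
    rw [Finset.mem_range] at hr
    have h3 : (0 : ℝ) ≤ (u : ℝ) - r := by
      have : (r : ℝ) ≤ u := by exact_mod_cast hr.le
      linarith
    exact mul_le_mul_of_nonneg_left ((le_abs_self _).trans (hε _ (by omega))) h3
  rw [← Finset.sum_mul, sum_weights] at h2
  linarith

/-- `∑ j (u - j) = (u - 1) u (u + 1) / 6` -/
theorem sum_T (u : ℕ) :
    ∑ j ∈ range u, ((u : ℝ) - j) * j = ((u : ℝ) - 1) * u * (u + 1) / 6 := by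
  have h : ∀ v : ℕ, ∑ j ∈ range v, ((u : ℝ) - j) * j
      = (u : ℝ) * (v * (v - 1) / 2) - (v - 1) * v * (2 * v - 1) / 6 := by
    intro v
    induction v with
    | zero => simp
    | succ v ih =>
      rw [Finset.sum_range_succ, ih]
      push_cast
      ring
  rw [h u]
  ring

/-- mass of the equilibrium sequence -/
theorem sum_f_le (u n : ℕ) (hu : 0 < u) {ε : ℝ}
    (hε : ∀ i : ℤ, (n : ℤ) - u + 1 ≤ i → |g u i| ≤ ε) :
    (u : ℝ) * (u + 1) / 2 * ∑ i ∈ Ico (0 : ℤ) (n + 1), f u i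
      ≤ (n + 1) + (cc u + ε) * (((u : ℝ) - 1) * u * (u + 1) / 6) := by
  have h1 : ∑ i ∈ Ico (0 : ℤ) (n + 1), ∑ j ∈ range u, ((u : ℝ) - j) * f u (i - j) = (n : ℝ) + 1 := by
    rw [Finset.sum_congr rfl (fun i hi => conv_eq u hu (Finset.mem_Ico.1 hi).1)]
    rw [Finset.sum_const, Int.card_Ico]
    simp
  rw [Finset.sum_comm] at h1
  have h2 : ∀ j ∈ range u, ((u : ℝ) - j) * ∑ i ∈ Ico (0 : ℤ) (n + 1), f u i
      - ((u : ℝ) - j) * j * (cc u + ε)
      ≤ ∑ i ∈ Ico (0 : ℤ) (n + 1), ((u : ℝ) - j) * f u (i - j) := by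
    intro j hj
    rw [Finset.mem_range] at hj
    have hj' : (0 : ℝ) ≤ (u : ℝ) - j := by
      have : (j : ℝ) ≤ u := by exact_mod_cast hj.le
      linarith
    rw [← Finset.mul_sum]
    have h3 : ∑ i ∈ Ico (0 : ℤ) (n + 1), f u (i - j) = ∑ l ∈ Ico (-(j : ℤ)) ((n : ℤ) + 1 - j), f u l := by
      refine Finset.sum_bij (fun i _ => i - j) ?_ ?_ ?_ ?_
      · intro i hi
        rw [Finset.mem_Ico] at hi ⊢
        constructor <;> omega
      · intro i _ i' _ h
        have h' : i - (j : ℤ) = i' - j := h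
        omega
      · intro l hl
        rw [Finset.mem_Ico] at hl
        exact ⟨l + j, by rw [Finset.mem_Ico]; constructor <;> omega, by ring⟩
      · intro i _
        rfl
    have h4 : ∑ l ∈ Ico (-(j : ℤ)) ((n : ℤ) + 1 - j), f u l
        + ∑ l ∈ Ico ((n : ℤ) + 1 - j) (n + 1), f u l = ∑ l ∈ Ico (-(j : ℤ)) ((n : ℤ) + 1), f u l :=
      sum_Ico_Z _ (by omega) (by omega)
    have h5 : ∑ l ∈ Ico (-(j : ℤ)) 0, f u l + ∑ l ∈ Ico (0 : ℤ) (n + 1), f u l
        = ∑ l ∈ Ico (-(j : ℤ)) ((n : ℤ) + 1), f u l :=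
      sum_Ico_Z _ (by omega) (by omega)
    have h6 : ∑ l ∈ Ico (-(j : ℤ)) 0, f u l = 0 :=
      Finset.sum_eq_zero (fun l hl => f_neg u (Finset.mem_Ico.1 hl).2)
    have h7 : ∑ l ∈ Ico ((n : ℤ) + 1 - j) (n + 1), f u l ≤ j * (cc u + ε) := by
      have h8 : ∀ l ∈ Ico ((n : ℤ) + 1 - j) (n + 1), f u l ≤ cc u + ε := by
        intro l hl
        rw [Finset.mem_Ico] at hl
        have := (le_abs_self _).trans (hε l (by omega))
        unfold g at this
        linarith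
      refine (Finset.sum_le_card_nsmul _ _ _ h8).trans (le_of_eq ?_)
      rw [Int.card_Ico, nsmul_eq_mul]
      congr 1
      have : ((n : ℤ) + 1 - (n + 1 - j)).toNat = j := by omega
      rw [this]
    rw [h3]
    have h9 : ∑ i ∈ Ico (0 : ℤ) (n + 1), f u i - j * (cc u + ε)
        ≤ ∑ l ∈ Ico (-(j : ℤ)) ((n : ℤ) + 1 - j), f u l := by linarith
    have h10 := mul_le_mul_of_nonneg_left h9 hj'
    nlinarith
  have h11 := Finset.sum_le_sum h2
  rw [h1, Finset.sum_sub_distrib, ← Finset.sum_mul, ← Finset.sum_mul, sum_weights, sum_T] at h11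
  nlinarith

/-- the norm of the dual function -/
theorem sum_G_sq_le (u n : ℕ) (hu : 0 < u) {ε : ℝ} (hε1 : ε ≤ cc u)
    (hε : ∀ i : ℤ, (n : ℤ) - u + 1 ≤ i → |g u i| ≤ ε) :
    ∑ y ∈ Ico (0 : ℤ) (n + u), G u n y ^ 2
      ≤ (n + 1) + (cc u + ε) * (((u : ℝ) - 1) * u * (u + 1) / 6)
        * (2 + (u : ℝ) * (u + 1) / 2 * ε) := by
  have hε0 : 0 ≤ ε := (abs_nonneg _).trans (hε ((n : ℤ) + 1) (by omega))
  set σ : ℝ := (u : ℝ) * (u + 1) / 2 with hσ
  have hσ0 : 0 ≤ σ := by positivity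
  have hf0 : ∀ i : ℤ, (n : ℤ) - u + 1 ≤ i → 0 ≤ f u i := by
    intro i hi
    have h1 := (abs_le.1 (hε i hi)).1
    unfold g at h1
    linarith
  have hf1 : ∀ i : ℤ, (n : ℤ) - u + 1 ≤ i → f u i ≤ cc u + ε := by
    intro i hi
    have h1 := (abs_le.1 (hε i hi)).2
    unfold g at h1
    linarith
  have h1 : ∑ y ∈ Ico (0 : ℤ) (n + u), G u n y ^ 2
      = ∑ r ∈ range u, ((u : ℝ) - r) * ∑ y ∈ Ico (0 : ℤ) (n + u), G u n y * f u ((n : ℤ) - y + r) := by
    have h2 : ∀ y ∈ Ico (0 : ℤ) (n + u), G u n y ^ 2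
        = ∑ r ∈ range u, ((u : ℝ) - r) * (G u n y * f u ((n : ℤ) - y + r)) := by
      intro y _
      rw [pow_two]
      conv_lhs =>
        congr
        · skip
        · rw [G]
      rw [Finset.mul_sum]
      refine Finset.sum_congr rfl (fun r _ => ?_)
      ring
    rw [Finset.sum_congr rfl h2, Finset.sum_comm]
    refine Finset.sum_congr rfl (fun r _ => ?_)
    rw [Finset.mul_sum]
  have h3 : ∀ r ∈ range u, ∑ y ∈ Ico (0 : ℤ) (n + u), G u n y * f u ((n : ℤ) - y + r)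
      ≤ r * ((cc u + ε) * (1 + σ * ε))
        + ∑ i ∈ Ico (0 : ℤ) (n + 1), f u i * G u n ((n : ℤ) - i + r) := by
    intro r hr
    rw [Finset.mem_range] at hr
    rw [← sum_Ico_Z _ (by omega : (0 : ℤ) ≤ r) (by omega : (r : ℤ) ≤ n + u)]
    have h4 : ∑ y ∈ Ico (0 : ℤ) r, G u n y * f u ((n : ℤ) - y + r)
        ≤ r * ((cc u + ε) * (1 + σ * ε)) := by
      have h5 : ∀ y ∈ Ico (0 : ℤ) r, G u n y * f u ((n : ℤ) - y + r)
          ≤ (cc u + ε) * (1 + σ * ε) := by
        intro y hy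
        rw [Finset.mem_Ico] at hy
        have h6 := G_le u n hu hε (y := y) (by omega)
        have h7 := hf0 ((n : ℤ) - y + r) (by omega)
        have h8 := hf1 ((n : ℤ) - y + r) (by omega)
        have h9 : 0 ≤ 1 + σ * ε := by positivity
        calc G u n y * f u ((n : ℤ) - y + r) ≤ (1 + σ * ε) * f u ((n : ℤ) - y + r) :=
              mul_le_mul_of_nonneg_right h6 h7
          _ ≤ (1 + σ * ε) * (cc u + ε) := mul_le_mul_of_nonneg_left h8 h9
          _ = (cc u + ε) * (1 + σ * ε) := by ring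
      refine (Finset.sum_le_card_nsmul _ _ _ h5).trans (le_of_eq ?_)
      rw [Int.card_Ico, nsmul_eq_mul]
      congr 1
    have h10 : ∑ y ∈ Ico (r : ℤ) (n + u), G u n y * f u ((n : ℤ) - y + r)
        = ∑ i ∈ Ico (0 : ℤ) (n + 1), f u i * G u n ((n : ℤ) - i + r) := by
      refine Finset.sum_bij_ne_zero (fun y _ _ => (n : ℤ) - y + r) ?_ ?_ ?_ ?_
      · intro y hy hne
        rw [Finset.mem_Ico] at hy ⊢
        have h11 : 0 ≤ (n : ℤ) - y + r := by
          by_contra hneg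
          exact hne (by rw [f_neg u (not_le.1 hneg), mul_zero])
        constructor <;> omega
      · intro y _ _ y' _ _ h
        have h' : (n : ℤ) - y + r = (n : ℤ) - y' + r := h
        omega
      · intro i hi hne
        rw [Finset.mem_Ico] at hi
        refine ⟨(n : ℤ) - i + r, by rw [Finset.mem_Ico]; constructor <;> omega, ?_, by ring⟩
        rw [show (n : ℤ) - ((n : ℤ) - i + r) + r = i from by ring]
        rw [mul_comm]
        exact hne
      · intro y _ _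
        rw [show (n : ℤ) - ((n : ℤ) - y + r) + r = y from by ring]
        ring
    rw [h10]
    linarith
  have h12 : ∑ r ∈ range u, ((u : ℝ) - r) * ∑ y ∈ Ico (0 : ℤ) (n + u), G u n y * f u ((n : ℤ) - y + r)
      ≤ ∑ r ∈ range u, ((u : ℝ) - r) * (r * ((cc u + ε) * (1 + σ * ε))
        + ∑ i ∈ Ico (0 : ℤ) (n + 1), f u i * G u n ((n : ℤ) - i + r)) := by
    refine Finset.sum_le_sum (fun r hr => ?_)
    have hr' := Finset.mem_range.1 hr
    have h13 : (0 : ℝ) ≤ (u : ℝ) - r := by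
      have : (r : ℝ) ≤ u := by exact_mod_cast hr'.le
      linarith
    exact mul_le_mul_of_nonneg_left (h3 r hr) h13
  have h14 : ∑ r ∈ range u, ((u : ℝ) - r) * (r * ((cc u + ε) * (1 + σ * ε))
        + ∑ i ∈ Ico (0 : ℤ) (n + 1), f u i * G u n ((n : ℤ) - i + r))
      = (((u : ℝ) - 1) * u * (u + 1) / 6) * ((cc u + ε) * (1 + σ * ε))
        + σ * ∑ i ∈ Ico (0 : ℤ) (n + 1), f u i := by
    generalize (cc u + ε) * (1 + σ * ε) = K
    rw [← sum_T, Finset.sum_mul, Finset.mul_sum]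
    simp only [mul_add]
    rw [Finset.sum_add_distrib]
    congr 1
    · refine Finset.sum_congr rfl (fun r _ => ?_)
      ring
    · simp only [Finset.mul_sum]
      rw [Finset.sum_comm]
      refine Finset.sum_congr rfl (fun i hi => ?_)
      have h15 := G_conv u n hu (a := (n : ℤ) - i) (by
        have := (Finset.mem_Ico.1 hi).1
        omega)
      rw [hσ, ← h15, Finset.sum_mul]
      refine Finset.sum_congr rfl (fun r _ => ?_)
      ring
  have h16 := sum_f_le u n hu hε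
  rw [h1]
  calc _ ≤ _ := h12
    _ = _ := h14
    _ ≤ _ := by
      rw [← hσ] at h16
      nlinarith

end MP49858b
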