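import Pool.Agent.Lib_MP_49858b_nt.Dual

/-!
# The window inequality for finite Sidon sets with the ramp window
-/

set_option autoImplicit false

open Finset

namespace MP49858b

/-- correlation of the ramp with itself -/
noncomputable def W (u : ℕ) (d : ℤ) : ℝ := ∑ s ∈ range u, ((u : ℝ) - s) * w u ((s : ℤ) + d)

theorem W_nonneg (u : ℕ) (d : ℤ) : 0 ≤ W u d := by
  refine Finset.sum_nonneg (fun s hs => mul_nonneg ?_ (w_nonneg u _))
  have h : (s : ℝ) ≤ u := by exact_mod_cast (Finset.mem_range.1 hs).le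
  linarith

theorem W_eq_zero (u : ℕ) {d : ℤ} (hd : d ∉ Ioo (-(u : ℤ)) u) : W u d = 0 := by
  refine Finset.sum_eq_zero (fun s hs => ?_)
  have hs' := Finset.mem_range.1 hs
  rw [Finset.mem_Ioo, not_and_or, not_lt, not_lt] at hd
  unfold w
  rw [if_neg (by omega), mul_zero]

theorem W_zero (u : ℕ) : W u 0 = (u : ℝ) * (u + 1) * (2 * u + 1) / 6 := by
  have h1 : W u 0 = ∑ s ∈ range u, ((u : ℝ) - s) ^ 2 := by
    refine Finset.sum_congr rfl (fun s hs => ?_)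
    have hs' := Finset.mem_range.1 hs
    unfold w
    rw [if_pos (by omega)]
    push_cast
    ring
  rw [h1]
  have h : ∀ v : ℕ, ∑ s ∈ range v, ((u : ℝ) - s) ^ 2
      = (v : ℝ) * u ^ 2 - u * (v * (v - 1)) + (v - 1) * v * (2 * v - 1) / 6 := by
    intro v
    induction v with
    | zero => simp
    | succ v ih =>
      rw [Finset.sum_range_succ, ih]
      push_cast
      ring
  rw [h u]
  ring

theorem sum_W (u : ℕ) :
    ∑ d ∈ Ioo (-(u : ℤ)) u, W u d = ((u : ℝ) * (u + 1) / 2) ^ 2 := by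
  unfold W
  rw [Finset.sum_comm]
  have h1 : ∀ s ∈ range u, ∑ d ∈ Ioo (-(u : ℤ)) u, ((u : ℝ) - s) * w u ((s : ℤ) + d)
      = ((u : ℝ) - s) * ((u : ℝ) * (u + 1) / 2) := by
    intro s hs
    have hs' := Finset.mem_range.1 hs
    rw [← Finset.mul_sum]
    congr 1
    have h2 := sum_w u (-(s : ℤ)) (Ioo (-(u : ℤ)) u) (by
      intro t ht
      have ht' := Finset.mem_range.1 ht
      rw [Finset.mem_Ioo]
      constructor <;> omega) (fun _ => 1)
    simp only [mul_one] at h2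
    rw [sum_weights] at h2
    rw [← h2]
    refine Finset.sum_congr rfl (fun d _ => ?_)
    congr 1
    ring
  rw [Finset.sum_congr rfl h1, ← Finset.sum_mul, sum_weights]
  ring

/-- Sidon sets of integers -/
def Sidon (A : Finset ℤ) : Prop :=
  ∀ a ∈ A, ∀ b ∈ A, ∀ x ∈ A, ∀ y ∈ A, a + b = x + y → (a = x ∧ b = y) ∨ (a = y ∧ b = x)

theorem diff_inj {A : Finset ℤ} (hA : Sidon A) :
    Set.InjOn (fun p : ℤ × ℤ => p.1 - p.2) (A.offDiag : Set (ℤ × ℤ)) := by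
  rintro ⟨a, b⟩ hab ⟨x, y⟩ hxy h
  rw [Finset.mem_coe, Finset.mem_offDiag] at hab hxy
  obtain ⟨ha, hb, hne⟩ := hab
  obtain ⟨hx, hy, hne'⟩ := hxy
  simp only at h ha hb hne hx hy hne'
  have h' : a + y = x + b := by linarith
  rcases hA a ha y hy x hx b hb h' with ⟨h1, h2⟩ | ⟨h1, h2⟩
  · rw [h1, h2]
  · exact absurd h1 hne

theorem card_le {A : Finset ℤ} (hA : Sidon A) (n : ℕ) (h0 : ∀ a ∈ A, 0 ≤ a ∧ a ≤ (n : ℤ)) :
    (A.card : ℝ) * (A.card - 1) ≤ 2 * n := by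
  classical
  have h1 : A.offDiag.card ≤ ((Icc (-(n : ℤ)) n).erase 0).card := by
    rw [← Finset.card_image_of_injOn (diff_inj hA)]
    refine Finset.card_le_card (fun d hd => ?_)
    rw [Finset.mem_image] at hd
    obtain ⟨⟨a, b⟩, hab, rfl⟩ := hd
    rw [Finset.mem_offDiag] at hab
    obtain ⟨ha, hb, hne⟩ := hab
    have h2 := h0 a ha
    have h3 := h0 b hb
    rw [Finset.mem_erase, Finset.mem_Icc]
    simp only at hne ⊢
    refine ⟨fun h => hne (by omega), by omega, by omega⟩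
  rw [Finset.offDiag_card, Finset.card_erase_of_mem (by rw [Finset.mem_Icc]; omega),
    Int.card_Icc] at h1
  have h2 : ((n : ℤ) + 1 - -(n : ℤ)).toNat - 1 = 2 * n := by omega
  rw [h2] at h1
  have h3 : A.card * A.card ≤ 2 * n + A.card := by omega
  have h4 : (A.card : ℝ) * A.card ≤ 2 * n + A.card := by exact_mod_cast h3
  linarith

theorem sum_F_sq {A : Finset ℤ} (hA : Sidon A) (u n : ℕ) (h0 : ∀ a ∈ A, 0 ≤ a ∧ a ≤ (n : ℤ)) :
    ∑ y ∈ Ico (0 : ℤ) (n + u), (∑ a ∈ A, w u (y - a)) ^ 2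
      ≤ A.card * W u 0 + (((u : ℝ) * (u + 1) / 2) ^ 2 - W u 0) := by
  classical
  have h1 : ∑ y ∈ Ico (0 : ℤ) (n + u), (∑ a ∈ A, w u (y - a)) ^ 2
      = ∑ a ∈ A, ∑ b ∈ A, W u (a - b) := by
    have h2 : ∀ y ∈ Ico (0 : ℤ) (n + u), (∑ a ∈ A, w u (y - a)) ^ 2
        = ∑ a ∈ A, ∑ b ∈ A, w u (y - a) * w u (y - b) := by
      intro y _
      rw [pow_two, Finset.sum_mul_sum]
    rw [Finset.sum_congr rfl h2, Finset.sum_comm]
    refine Finset.sum_congr rfl (fun a ha => ?_)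
    rw [Finset.sum_comm]
    refine Finset.sum_congr rfl (fun b _ => ?_)
    have ha' := h0 a ha
    rw [sum_w u a (Ico (0 : ℤ) (n + u)) (by
      intro s hs
      have hs' := Finset.mem_range.1 hs
      rw [Finset.mem_Ico]
      constructor <;> omega) (fun y => w u (y - b))]
    unfold W
    refine Finset.sum_congr rfl (fun s _ => ?_)
    rw [show a + (s : ℤ) - b = (s : ℤ) + (a - b) from by ring]
  rw [h1]
  have h3 : ∑ a ∈ A, ∑ b ∈ A, W u (a - b)
      = ∑ p ∈ A.diag, W u (p.1 - p.2) + ∑ p ∈ A.offDiag, W u (p.1 - p.2) := by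
    rw [← Finset.sum_product', ← Finset.diag_union_offDiag,
      Finset.sum_union (Finset.disjoint_diag_offDiag A)]
  rw [h3]
  have h4 : ∑ p ∈ A.diag, W u (p.1 - p.2) = A.card * W u 0 := by
    rw [Finset.sum_diag]
    simp
  rw [h4]
  have h5 : ∑ p ∈ A.offDiag, W u (p.1 - p.2)
      = ∑ d ∈ A.offDiag.image (fun p : ℤ × ℤ => p.1 - p.2), W u d := by
    rw [Finset.sum_image (diff_inj hA)]
  have h6 : ∑ d ∈ A.offDiag.image (fun p : ℤ × ℤ => p.1 - p.2), W u d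
      ≤ ∑ d ∈ (Ioo (-(u : ℤ)) u).erase 0, W u d := by
    have h61 : ∑ d ∈ (A.offDiag.image (fun p : ℤ × ℤ => p.1 - p.2)).filter
        (fun d => d ∈ Ioo (-(u : ℤ)) u), W u d
        = ∑ d ∈ A.offDiag.image (fun p : ℤ × ℤ => p.1 - p.2), W u d := by
      refine Finset.sum_filter_of_ne (fun d _ hne => ?_)
      by_contra h
      exact hne (W_eq_zero u h)
    rw [← h61]
    refine Finset.sum_le_sum_of_subset_of_nonneg (fun d hd => ?_) (fun d _ _ => W_nonneg u d)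
    rw [Finset.mem_filter] at hd
    rw [Finset.mem_erase]
    refine ⟨?_, hd.2⟩
    rintro rfl
    obtain ⟨⟨a, b⟩, hab, h⟩ := Finset.mem_image.1 hd.1
    rw [Finset.mem_offDiag] at hab
    exact hab.2.2 (by simpa [sub_eq_zero] using h)
  have h7 : ∑ d ∈ (Ioo (-(u : ℤ)) u).erase 0, W u d ≤ ((u : ℝ) * (u + 1) / 2) ^ 2 - W u 0 := by
    rw [← sum_W u]
    rcases Nat.eq_zero_or_pos u with rfl | hu
    · simp [W]
    · have h8 := Finset.add_sum_erase (Ioo (-(u : ℤ)) u) (fun d => W u d)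
        (a := 0) (by rw [Finset.mem_Ioo]; omega)
      linarith
  linarith

/-- the window inequality -/
theorem window {A : Finset ℤ} (hA : Sidon A) (u n : ℕ) (hu : 0 < u)
    (h0 : ∀ a ∈ A, 0 ≤ a ∧ a ≤ (n : ℤ)) {η : ℝ} (hη0 : 0 ≤ η) (hη1 : η ≤ 1)
    (hε : ∀ i : ℤ, (n : ℤ) - u + 1 ≤ i → |g u i| ≤ η * cc u) (hk : 1 ≤ A.card) :
    (A.card : ℝ) ^ 2 ≤ (1 + 4 / 3 * (A.card / u))
      * (n + 1 + 2 / 3 * u + 4 / 3 * η * u) := by
  have hu' : (0 : ℝ) < u := by exact_mod_cast hu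
  have hk' : (1 : ℝ) ≤ A.card := by exact_mod_cast hk
  set σ : ℝ := (u : ℝ) * (u + 1) / 2 with hσ
  have hσ0 : 0 < σ := by positivity
  have hcs := cc_mul u hu
  rw [← hσ] at hcs
  -- Cauchy-Schwarz
  have h1 : ∑ y ∈ Ico (0 : ℤ) (n + u), (∑ a ∈ A, w u (y - a)) * G u n y = A.card * σ := by
    simp only [Finset.sum_mul]
    rw [Finset.sum_comm]
    have h2 : ∀ a ∈ A, ∑ y ∈ Ico (0 : ℤ) (n + u), w u (y - a) * G u n y = σ := by
      intro a ha
      have ha' := h0 a ha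
      rw [sum_w u a (Ico (0 : ℤ) (n + u)) (by
        intro s hs
        have hs' := Finset.mem_range.1 hs
        rw [Finset.mem_Ico]
        constructor <;> omega) (G u n)]
      exact G_conv u n hu ha'.2
    rw [Finset.sum_congr rfl h2, Finset.sum_const, nsmul_eq_mul]
  have h2 := Finset.sum_mul_sq_le_sq_mul_sq (Ico (0 : ℤ) (n + u))
    (fun y => ∑ a ∈ A, w u (y - a)) (G u n)
  rw [h1] at h2
  have h3 := sum_F_sq hA u n h0
  have h4 := sum_G_sq_le u n hu (ε := η * cc u)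
    (by nlinarith [cc_pos u hu]) hε
  rw [← hσ] at h3 h4
  have h5 : ∑ y ∈ Ico (0 : ℤ) (n + u), G u n y ^ 2 ≤ n + 1 + 2 / 3 * u + 4 / 3 * η * u := by
    refine h4.trans ?_
    have h6 : (cc u + η * cc u) * (((u : ℝ) - 1) * u * (u + 1) / 6) * (2 + σ * (η * cc u))
        = ((u : ℝ) - 1) / 3 * (1 + η) * (2 + η) := by
      have e1 : σ * (η * cc u) = η := by linear_combination η * hcs
      have e2 : (cc u + η * cc u) * (((u : ℝ) - 1) * u * (u + 1) / 6)
          = ((u : ℝ) - 1) / 3 * (1 + η) := by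
        have : (cc u + η * cc u) * (((u : ℝ) - 1) * u * (u + 1) / 6)
            = (1 + η) * ((u : ℝ) - 1) / 3 * (cc u * σ) := by rw [hσ]; ring
        rw [this, hcs]
        ring
      rw [e1, e2]
    rw [h6]
    have h7 : (0 : ℝ) ≤ (u : ℝ) - 1 := by
      have : (1 : ℝ) ≤ u := by exact_mod_cast hu
      linarith
    have h8 : (1 + η) * (2 + η) ≤ 2 + 4 * η := by nlinarith
    have h9 : 0 ≤ 2 + 4 * η := by positivity
    nlinarith
  have h6 : 0 ≤ ∑ y ∈ Ico (0 : ℤ) (n + u), G u n y ^ 2 :=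
    Finset.sum_nonneg (fun y _ => sq_nonneg _)
  have h7 : (A.card : ℝ) * W u 0 + (σ ^ 2 - W u 0) ≤ σ ^ 2 * (1 + 4 / 3 * (A.card / u)) := by
    rw [W_zero]
    have h8 : σ ^ 2 * (1 + 4 / 3 * (A.card / u)) = σ ^ 2 + A.card * (u * (u + 1) ^ 2 / 3) := by
      rw [hσ]
      field_simp
      ring
    rw [h8]
    have h9 : (u : ℝ) * (u + 1) * (2 * u + 1) / 6 ≤ u * (u + 1) ^ 2 / 3 := by nlinarith
    have h10 : 0 ≤ (u : ℝ) * (u + 1) * (2 * u + 1) / 6 := by positivity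
    nlinarith
  have h8 : 0 ≤ (A.card : ℝ) * W u 0 + (σ ^ 2 - W u 0) :=
    (Finset.sum_nonneg (fun y _ => sq_nonneg _)).trans h3
  have h9 : ((A.card : ℝ) * σ) ^ 2 ≤ σ ^ 2 * (1 + 4 / 3 * (A.card / u))
      * (n + 1 + 2 / 3 * u + 4 / 3 * η * u) := by
    refine h2.trans ?_
    exact mul_le_mul (h3.trans h7) h5 h6 (by positivity)
  have h10 : σ ^ 2 * (A.card : ℝ) ^ 2 ≤ σ ^ 2 * ((1 + 4 / 3 * (A.card / u))
      * (n + 1 + 2 / 3 * u + 4 / 3 * η * u)) := by linarith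
  exact le_of_mul_le_mul_left h10 (by positivity)

end MP49858b
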