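import Pool.Agent.Lib_MP_49858b_nt.Main

/-!
# The diameter bound
-/

set_option autoImplicit false

open Finset

namespace MP49858b

theorem rpow_three_half (k : ℕ) : ((k : ℝ)) ^ (3 / 2 : ℝ) = (√(k : ℝ)) ^ 3 := by
  rw [Real.sqrt_eq_rpow, ← Real.rpow_natCast, ← Real.rpow_mul (by positivity)]
  norm_num

theorem diam {A : Finset ℤ} (hA : Sidon A) (n : ℕ) (h0 : ∀ a ∈ A, 0 ≤ a ∧ a ≤ (n : ℤ)) :
    (A.card : ℝ) ^ 2 - 4 * √2 / 3 * (A.card : ℝ) ^ (3 / 2 : ℝ) - 50 * A.card ≤ (n : ℝ) + 1 := by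
  rw [rpow_three_half]
  obtain ⟨x, hx⟩ : ∃ x : ℝ, x = √(A.card : ℝ) := ⟨_, rfl⟩
  have hx0 : 0 ≤ x := by rw [hx]; positivity
  have hx2 : (A.card : ℝ) = x ^ 2 := by rw [hx, Real.sq_sqrt (by positivity)]
  have hcard := card_le hA n h0
  obtain ⟨s, hs⟩ : ∃ s : ℝ, s = √2 := ⟨_, rfl⟩
  have hs2 : s ^ 2 = 2 := by rw [hs, Real.sq_sqrt (by norm_num)]
  have hs0 : 0 ≤ s := by rw [hs]; positivity
  have hs1 : 1.414 < s := by nlinarith
  have hs3 : s < 1.415 := by nlinarith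
  rw [← hx, ← hs, hx2]
  rw [hx2] at hcard
  rcases lt_or_ge x 11 with hsmall | hbig
  · nlinarith [mul_nonneg hx0 hx0, mul_nonneg hx0 (sub_nonneg.2 hsmall.le),
      mul_nonneg (mul_nonneg hx0 hx0) (sub_nonneg.2 hsmall.le), pow_nonneg hx0 3,
      mul_nonneg (pow_nonneg hx0 3) (sub_nonneg.2 hs1.le)]
  by_contra hcon
  rw [not_le] at hcon
  have hx3 : 0 < x ^ 3 := by positivity
  have hN : (n : ℝ) + 1 ≤ x ^ 4 := by nlinarith
  have hn : 60 / 121 * x ^ 4 ≤ n := by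
    have : 121 ≤ x ^ 2 := by nlinarith
    nlinarith
  -- the window length
  obtain ⟨u, hu⟩ : ∃ u : ℕ, u = ⌈s * x ^ 3⌉₊ := ⟨_, rfl⟩
  have hu1 : s * x ^ 3 ≤ u := by rw [hu]; exact Nat.le_ceil _
  have hu2 : (u : ℝ) ≤ s * x ^ 3 + 1 := by
    rw [hu]; exact (Nat.ceil_lt_add_one (by positivity)).le
  have hu0' : (0 : ℝ) < u := lt_of_lt_of_le (by positivity) hu1
  have hu0 : 0 < u := by exact_mod_cast hu0'
  have hx11 : (1331 : ℝ) ≤ x ^ 3 := by nlinarith [mul_nonneg hx0 hx0]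
  have h3u : 3 * (u : ℝ) ≤ n := by nlinarith
  have h3u' : 3 * u ≤ n := by exact_mod_cast h3u
  obtain ⟨q, hq⟩ : ∃ q : ℕ, q = n / u := ⟨_, rfl⟩
  have hq3 : 3 ≤ q := by rw [hq, Nat.le_div_iff_mul_le hu0]; exact h3u'
  have hq1 : q * u ≤ n := by rw [hq]; exact Nat.div_mul_le_self n u
  have hq2 : n < (q + 1) * u := by
    rw [hq]
    have := Nat.lt_div_mul_add (a := n) hu0
    nlinarith
  obtain ⟨r, rfl⟩ : ∃ r : ℕ, q = r + 1 := ⟨q - 1, by omega⟩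
  have hr1 : 1 ≤ r := by omega
  have hcc := cc_pos u hu0
  obtain ⟨η, hη⟩ : ∃ η : ℝ, η = ((u : ℝ) + 1) / u * (1 / 2) ^ r := ⟨_, rfl⟩
  have hη0 : 0 ≤ η := by rw [hη]; positivity
  have hηc : η * cc u = 2 / (u : ℝ) ^ 2 * (1 / 2) ^ r := by
    rw [hη]
    unfold cc
    field_simp
  have hu1' : (1 : ℝ) ≤ u := by exact_mod_cast hu0
  have hratio : ((u : ℝ) + 1) / u ≤ 2 := by
    rw [div_le_iff₀ hu0']
    linarith
  have hη1 : η ≤ 1 := by
    rw [hη]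
    have h1 : (1 / 2 : ℝ) ^ r ≤ 1 / 2 := by
      calc (1 / 2 : ℝ) ^ r ≤ (1 / 2) ^ 1 := pow_le_pow_of_le_one (by norm_num) (by norm_num) hr1
        _ = 1 / 2 := by norm_num
    have h2 : (0 : ℝ) ≤ (1 / 2) ^ r := by positivity
    nlinarith
  have hn0 : (0 : ℝ) < n := by linarith
  have hη2 : η * n ≤ 8 * u := by
    have h1 : (n : ℝ) ≤ ((r : ℝ) + 2) * u := by
      have : (n : ℝ) ≤ ((r + 1 + 1 : ℕ) : ℝ) * u := by exact_mod_cast hq2.le
      push_cast at this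
      linarith
    have h2 : ((r : ℝ) + 2) * (1 / 2) ^ r ≤ 4 := by
      have h3 : ((r + 2 : ℕ) : ℝ) ≤ (2 : ℝ) ^ (r + 2) := by
        exact_mod_cast (Nat.lt_two_pow_self (n := r + 2)).le
      have h4 : (2 : ℝ) ^ (r + 2) * (1 / 2) ^ r = 4 := by
        rw [pow_add, mul_comm ((2 : ℝ) ^ r), mul_assoc, ← mul_pow]
        norm_num
      have h5 : (0 : ℝ) ≤ (1 / 2) ^ r := by positivity
      push_cast at h3
      nlinarith
    have h5 : (0 : ℝ) ≤ (1 / 2) ^ r := by positivity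
    rw [hη]
    have h6 : (n : ℝ) * (1 / 2) ^ r ≤ 4 * u := by
      calc (n : ℝ) * (1 / 2) ^ r ≤ (((r : ℝ) + 2) * u) * (1 / 2) ^ r :=
            mul_le_mul_of_nonneg_right h1 h5
        _ = (((r : ℝ) + 2) * (1 / 2) ^ r) * u := by ring
        _ ≤ 4 * u := mul_le_mul_of_nonneg_right h2 hu0'.le
    calc ((u : ℝ) + 1) / u * (1 / 2) ^ r * n = ((u : ℝ) + 1) / u * (n * (1 / 2) ^ r) := by ring
      _ ≤ 2 * (4 * u) := mul_le_mul hratio h6 (by positivity) (by norm_num)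
      _ = 8 * u := by ring
  have hcard1 : 1 ≤ A.card := by
    have : (1 : ℝ) ≤ (A.card : ℝ) := by rw [hx2]; nlinarith
    exact_mod_cast this
  have hwin := window hA u n hu0 h0 hη0 hη1 (fun i hi => by
    rw [hηc]
    refine abs_g_decay u hu0 r i ?_
    have : ((r : ℤ) + 1) * u ≤ n := by exact_mod_cast hq1
    linarith) hcard1
  rw [hx2] at hwin
  have hP0 : 0 ≤ x ^ 2 / (u : ℝ) := by positivity
  have hPu : x ^ 2 / (u : ℝ) * u = x ^ 2 := by field_simp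
  have hPN : x ^ 2 / (u : ℝ) * ((n : ℝ) + 1) ≤ s / 2 * x ^ 3 := by
    rw [div_mul_eq_mul_div, div_le_iff₀ hu0']
    calc x ^ 2 * ((n : ℝ) + 1) ≤ x ^ 2 * x ^ 4 := mul_le_mul_of_nonneg_left hN (by positivity)
      _ = s / 2 * x ^ 3 * (s * x ^ 3) := by linear_combination (-(x ^ 6) / 2) * hs2
      _ ≤ s / 2 * x ^ 3 * u := mul_le_mul_of_nonneg_left hu1 (by positivity)
  have hηu : η * u ≤ 33 * x ^ 2 := by
    have h1 : η * u * n ≤ 33 * x ^ 2 * n := by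
      calc η * u * n = (η * n) * u := by ring
        _ ≤ (8 * u) * u := mul_le_mul_of_nonneg_right hη2 hu0'.le
        _ ≤ 33 * x ^ 2 * (60 / 121 * x ^ 4) := by
          have h2 : (u : ℝ) * u ≤ (s * x ^ 3 + 1) * (s * x ^ 3 + 1) :=
            mul_le_mul hu2 hu2 hu0'.le (by positivity)
          have h3 : (s * x ^ 3 + 1) * (s * x ^ 3 + 1) = 2 * (x ^ 3) ^ 2 + 2 * s * x ^ 3 + 1 := by
            linear_combination ((x ^ 3) ^ 2) * hs2
          have h4 : x ^ 2 * x ^ 4 = (x ^ 3) ^ 2 := by ring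
          nlinarith
        _ ≤ 33 * x ^ 2 * n := mul_le_mul_of_nonneg_left hn (by positivity)
    exact le_of_mul_le_mul_right h1 hn0
  have hexp : (1 + 4 / 3 * (x ^ 2 / (u : ℝ))) * ((n : ℝ) + 1 + 2 / 3 * u + 4 / 3 * η * u)
      = (n : ℝ) + 1 + 2 / 3 * u + 4 / 3 * (η * u) + 4 / 3 * (x ^ 2 / (u : ℝ) * ((n : ℝ) + 1))
        + 8 / 9 * (x ^ 2 / (u : ℝ) * u) + 16 / 9 * (x ^ 2 / (u : ℝ) * u) * η := by
    ring
  rw [hexp, hPu] at hwin
  have h1 : x ^ 2 * η ≤ x ^ 2 := by nlinarith [pow_nonneg hx0 2]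
  nlinarith

/-- the theorem in the language of the problem -/
theorem main (A : Finset ℕ) (hpos : ∀ x ∈ A, 0 < x)
    (hA : ∀ a ∈ A, ∀ b ∈ A, ∀ x ∈ A, ∀ y ∈ A, a + b = x + y →
      (a = x ∧ b = y) ∨ (a = y ∧ b = x)) (N : ℕ) (hN : ∀ x ∈ A, x ≤ N) :
    (A.card : ℝ) ^ 2 - 4 * √2 / 3 * (A.card : ℝ) ^ (3 / 2 : ℝ) - 50 * A.card ≤ (N : ℝ) := by
  classical
  rcases A.eq_empty_or_nonempty with rfl | ⟨a0, ha0⟩
  · simp only [Finset.card_empty, Nat.cast_zero]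
    rw [Real.zero_rpow (by norm_num)]
    simp
  have hN1 : 1 ≤ N := (hpos a0 ha0).trans_le (hN a0 ha0)
  have hinj : Function.Injective (fun a : ℕ => (a : ℤ) - 1) := by
    intro a b h
    have h' : (a : ℤ) - 1 = (b : ℤ) - 1 := h
    omega
  have h1 := diam (A := A.image (fun a : ℕ => (a : ℤ) - 1)) (by
    intro a ha b hb x hx y hy h
    obtain ⟨a', ha', rfl⟩ := Finset.mem_image.1 ha
    obtain ⟨b', hb', rfl⟩ := Finset.mem_image.1 hb
    obtain ⟨x', hx', rfl⟩ := Finset.mem_image.1 hx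
    obtain ⟨y', hy', rfl⟩ := Finset.mem_image.1 hy
    have h' : a' + b' = x' + y' := by
      have : ((a' : ℤ) - 1) + (b' - 1) = (x' - 1) + (y' - 1) := h
      omega
    rcases hA a' ha' b' hb' x' hx' y' hy' h' with ⟨h2, h3⟩ | ⟨h2, h3⟩
    · left; rw [h2, h3]; exact ⟨rfl, rfl⟩
    · right; rw [h2, h3]; exact ⟨rfl, rfl⟩) (N - 1) (by
    intro a ha
    obtain ⟨a', ha', rfl⟩ := Finset.mem_image.1 ha
    have h2 := hpos a' ha'
    have h3 := hN a' ha'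
    constructor
    · show (0 : ℤ) ≤ (a' : ℤ) - 1
      omega
    · show (a' : ℤ) - 1 ≤ ((N - 1 : ℕ) : ℤ)
      omega)
  rw [Finset.card_image_of_injective _ hinj] at h1
  have h2 : ((N - 1 : ℕ) : ℝ) + 1 = N := by
    rw [Nat.cast_sub hN1]
    push_cast
    ring
  rw [h2] at h1
  exact h1

end MP49858b
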