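import Mathlib

/-!
# The equilibrium sequence of the ramp kernel

`f u` is the sequence on the integers which vanishes on the negative integers and satisfies
`∑_{j<u} (u - j) f (i - j) = 1` for all `i ≥ 0`. It converges exponentially fast, at scale `u`, to
`c = 2 / (u (u + 1))`.
-/

set_option autoImplicit false

open Finset

namespace MP49858b

/-- the sequence on the natural numbers -/
noncomputable def fN (u : ℕ) (n : ℕ) : ℝ :=
  (1 - ∑ l : Fin n, ((u - (n - l.1) : ℕ) : ℝ) * fN u l.1) / u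
termination_by n
decreasing_by exact l.2

/-- the sequence on the integers -/
noncomputable def f (u : ℕ) (i : ℤ) : ℝ := if 0 ≤ i then fN u i.toNat else 0

theorem f_neg (u : ℕ) {i : ℤ} (hi : i < 0) : f u i = 0 := by
  unfold f
  rw [if_neg (not_le.2 hi)]

theorem f_nat (u n : ℕ) : f u (n : ℤ) = fN u n := by
  unfold f
  rw [if_pos (Int.natCast_nonneg n), Int.toNat_natCast]

theorem fN_eq (u n : ℕ) (hu : 0 < u) :
    ∑ l ∈ range (n + 1), ((u - (n - l) : ℕ) : ℝ) * fN u l = 1 := by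
  have hu' : (u : ℝ) ≠ 0 := by positivity
  rw [Finset.sum_range_succ]
  have h1 : fN u n = (1 - ∑ l ∈ range n, ((u - (n - l) : ℕ) : ℝ) * fN u l) / u := by
    conv_lhs => rw [fN]
    rw [Finset.sum_range]
  have h2 : (u : ℝ) * fN u n = 1 - ∑ l ∈ range n, ((u - (n - l) : ℕ) : ℝ) * fN u l := by
    rw [h1]
    field_simp
  rw [Nat.sub_self, Nat.sub_zero, h2]
  ring

theorem conv_nat (u n : ℕ) :
    ∑ j ∈ range u, ((u : ℝ) - j) * f u ((n : ℤ) - j)
      = ∑ l ∈ range (n + 1), ((u - (n - l) : ℕ) : ℝ) * fN u l := by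
  have h1 : ∑ l ∈ range (n + 1), ((u - (n - l) : ℕ) : ℝ) * fN u l
      = ∑ j ∈ range (n + 1), ((u - j : ℕ) : ℝ) * f u ((n : ℤ) - j) := by
    rw [← Finset.sum_range_reflect]
    refine Finset.sum_congr rfl (fun j hj => ?_)
    rw [Finset.mem_range] at hj
    have h2 : n + 1 - 1 - j = n - j := by omega
    have h3 : n - (n - j) = j := by omega
    have h4 : ((n : ℤ) - j) = ((n - j : ℕ) : ℤ) := by omega
    rw [h2, h3, h4, f_nat]
  have h2 : ∑ j ∈ range u, ((u : ℝ) - j) * f u ((n : ℤ) - j)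
      = ∑ j ∈ range u, ((u - j : ℕ) : ℝ) * f u ((n : ℤ) - j) := by
    refine Finset.sum_congr rfl (fun j hj => ?_)
    rw [Finset.mem_range] at hj
    rw [Nat.cast_sub hj.le]
  rw [h1, h2]
  have h3 : ∑ j ∈ range u, ((u - j : ℕ) : ℝ) * f u ((n : ℤ) - j)
      = ∑ j ∈ range (u + (n + 1)), ((u - j : ℕ) : ℝ) * f u ((n : ℤ) - j) := by
    refine Finset.sum_subset (Finset.range_mono (by omega)) (fun j _ hj => ?_)
    rw [Finset.mem_range, not_lt] at hj
    rw [Nat.sub_eq_zero_of_le hj]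
    simp
  have h4 : ∑ j ∈ range (n + 1), ((u - j : ℕ) : ℝ) * f u ((n : ℤ) - j)
      = ∑ j ∈ range (u + (n + 1)), ((u - j : ℕ) : ℝ) * f u ((n : ℤ) - j) := by
    refine Finset.sum_subset (Finset.range_mono (by omega)) (fun j _ hj => ?_)
    rw [Finset.mem_range, not_lt] at hj
    rw [f_neg u (by omega : (n : ℤ) - j < 0), mul_zero]
  rw [h3, h4]

/-- the defining property -/
theorem conv_eq (u : ℕ) (hu : 0 < u) {i : ℤ} (hi : 0 ≤ i) :
    ∑ j ∈ range u, ((u : ℝ) - j) * f u (i - j) = 1 := by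
  obtain ⟨n, rfl⟩ := Int.eq_ofNat_of_zero_le hi
  rw [conv_nat, fN_eq u n hu]

/-- `∑_{j<u} (u - j) = u (u + 1) / 2` -/
theorem sum_weights (u : ℕ) : ∑ j ∈ range u, ((u : ℝ) - j) = (u : ℝ) * (u + 1) / 2 := by
  rw [Finset.sum_sub_distrib, Finset.sum_const, Finset.card_range, nsmul_eq_mul]
  have h : ∑ j ∈ range u, (j : ℝ) = (u : ℝ) * (u - 1) / 2 := by
    induction u with
    | zero => simp
    | succ u ih =>
      rw [Finset.sum_range_succ, ih]
      push_cast
      ring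
  rw [h]
  ring

theorem sum_range_cast (u : ℕ) : ∑ j ∈ range u, (j : ℝ) = (u : ℝ) * (u - 1) / 2 := by
  induction u with
  | zero => simp
  | succ u ih =>
    rw [Finset.sum_range_succ, ih]
    push_cast
    ring

/-- the limit of the sequence -/
noncomputable def cc (u : ℕ) : ℝ := 2 / ((u : ℝ) * (u + 1))

/-- the deviation -/
noncomputable def g (u : ℕ) (i : ℤ) : ℝ := f u i - cc u

theorem cc_pos (u : ℕ) (hu : 0 < u) : 0 < cc u := by
  unfold cc
  positivity

theorem cc_mul (u : ℕ) (hu : 0 < u) : cc u * ((u : ℝ) * (u + 1) / 2) = 1 := by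
  have hu' : (0 : ℝ) < u := by exact_mod_cast hu
  unfold cc
  field_simp

theorem conv_g (u : ℕ) (hu : 0 < u) {i : ℤ} (hi : 0 ≤ i) :
    ∑ j ∈ range u, ((u : ℝ) - j) * g u (i - j) = 0 := by
  unfold g
  have h1 := conv_eq u hu hi
  simp only [mul_sub, Finset.sum_sub_distrib]
  rw [h1, ← Finset.sum_mul, sum_weights, mul_comm, cc_mul u hu, sub_self]

theorem step_f (u : ℕ) (hu : 0 < u) {i : ℤ} (hi : 1 ≤ i) :
    (u : ℝ) * f u i = ∑ j ∈ range u, f u (i - 1 - j) := by
  have h1 := conv_eq u hu (i := i) (by omega)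
  have h2 := conv_eq u hu (i := i - 1) (by omega)
  obtain ⟨v, rfl⟩ : ∃ v, u = v + 1 := ⟨u - 1, by omega⟩
  rw [Finset.sum_range_succ'] at h1
  have h3 : ∑ j ∈ range v, (((v + 1 : ℕ) : ℝ) - ((j + 1 : ℕ) : ℝ)) * f (v + 1) (i - ((j + 1 : ℕ) : ℤ))
      = ∑ j ∈ range (v + 1), ((v : ℝ) - j) * f (v + 1) (i - 1 - j) := by
    rw [Finset.sum_range_succ, sub_self, zero_mul, add_zero]
    refine Finset.sum_congr rfl (fun j _ => ?_)
    rw [show i - ((j + 1 : ℕ) : ℤ) = i - 1 - j from by push_cast; ring]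
    push_cast
    ring
  rw [h3] at h1
  have h4 : ∑ j ∈ range (v + 1), f (v + 1) (i - 1 - j)
      = ∑ j ∈ range (v + 1), (((v + 1 : ℕ) : ℝ) - j) * f (v + 1) (i - 1 - j)
        - ∑ j ∈ range (v + 1), ((v : ℝ) - j) * f (v + 1) (i - 1 - j) := by
    rw [← Finset.sum_sub_distrib]
    refine Finset.sum_congr rfl (fun j _ => ?_)
    push_cast
    ring
  rw [h4, h2]
  simp only [Nat.cast_zero, sub_zero] at h1
  linarith

theorem step_g (u : ℕ) (hu : 0 < u) {i : ℤ} (hi : 1 ≤ i) :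
    (u : ℝ) ^ 2 * g u i = ∑ j ∈ range u, (j : ℝ) * g u (i - 1 - j) := by
  have h1 := step_f u hu hi
  have h2 := conv_g u hu (i := i - 1) (by omega)
  have h3 : (u : ℝ) * g u i = ∑ j ∈ range u, g u (i - 1 - j) := by
    unfold g
    rw [mul_sub, h1, Finset.sum_sub_distrib, Finset.sum_const, Finset.card_range, nsmul_eq_mul]
  have h4 : ∑ j ∈ range u, (j : ℝ) * g u (i - 1 - j)
      = (u : ℝ) * ∑ j ∈ range u, g u (i - 1 - j)
        - ∑ j ∈ range u, ((u : ℝ) - j) * g u (i - 1 - j) := by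
    rw [Finset.mul_sum, ← Finset.sum_sub_distrib]
    refine Finset.sum_congr rfl (fun j _ => ?_)
    ring
  rw [h4, h2, ← h3]
  ring

theorem f_zero (u : ℕ) (hu : 0 < u) : f u 0 = 1 / u := by
  have h := fN_eq u 0 hu
  have hu' : (u : ℝ) ≠ 0 := by positivity
  simp only [zero_add, Finset.sum_range_one, Nat.sub_zero] at h
  rw [show (0 : ℤ) = ((0 : ℕ) : ℤ) from rfl, f_nat]
  field_simp
  linarith

theorem cc_le (u : ℕ) (hu : 0 < u) : cc u ≤ 2 / (u : ℝ) ^ 2 := by
  have hu' : (0 : ℝ) < u := by exact_mod_cast hu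
  unfold cc
  apply div_le_div_of_nonneg_left (by norm_num) (by positivity)
  nlinarith

theorem abs_g_zero (u : ℕ) (hu : 0 < u) : |g u 0| ≤ 1 / u := by
  have hu' : (1 : ℝ) ≤ u := by exact_mod_cast hu
  unfold g
  rw [f_zero u hu]
  have h1 := cc_pos u hu
  have h2 : cc u ≤ 1 / u := by
    unfold cc
    rw [div_le_div_iff₀ (by positivity) (by positivity)]
    nlinarith
  rw [abs_of_nonneg (by linarith)]
  linarith

theorem abs_g_neg (u : ℕ) (hu : 0 < u) {i : ℤ} (hi : i < 0) : |g u i| ≤ 2 / (u : ℝ) ^ 2 := by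
  unfold g
  rw [f_neg u hi, zero_sub, abs_neg, abs_of_pos (cc_pos u hu)]
  exact cc_le u hu

theorem abs_g_base (u : ℕ) (hu : 0 < u) : ∀ n : ℕ, |g u ((n : ℤ) + 1)| ≤ 2 / (u : ℝ) ^ 2 := by
  have hu' : (1 : ℝ) ≤ u := by exact_mod_cast hu
  intro n
  induction n using Nat.strong_induction_on with
  | _ n ih =>
    have h1 := step_g u hu (i := (n : ℤ) + 1) (by omega)
    have h2 : ∀ j ∈ range u, |(j : ℝ) * g u ((n : ℤ) + 1 - 1 - j)|
        ≤ (j : ℝ) * (2 / (u : ℝ) ^ 2) + (if j = n then 1 else 0) := by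
      intro j hj
      rw [Finset.mem_range] at hj
      rw [abs_mul, abs_of_nonneg (by positivity : (0 : ℝ) ≤ j)]
      rcases lt_trichotomy j n with h | h | h
      · rw [if_neg (by omega), add_zero]
        have e : (n : ℤ) + 1 - 1 - j = ((n - j - 1 : ℕ) : ℤ) + 1 := by omega
        rw [e]
        exact mul_le_mul_of_nonneg_left (ih _ (by omega)) (by positivity)
      · subst h
        rw [if_pos rfl]
        have e : (j : ℤ) + 1 - 1 - j = 0 := by ring
        rw [e]
        have h3 := abs_g_zero u hu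
        have h4 : (j : ℝ) * |g u 0| ≤ 1 := by
          have h5 : (j : ℝ) ≤ u := by exact_mod_cast hj.le
          calc (j : ℝ) * |g u 0| ≤ u * (1 / u) :=
                mul_le_mul h5 h3 (abs_nonneg _) (by positivity)
            _ = 1 := by field_simp
        have h5 : (0 : ℝ) ≤ (j : ℝ) * (2 / (u : ℝ) ^ 2) := by positivity
        linarith
      · rw [if_neg (by omega), add_zero]
        exact mul_le_mul_of_nonneg_left (abs_g_neg u hu (by omega)) (by positivity)
    have h3 : |(u : ℝ) ^ 2 * g u ((n : ℤ) + 1)| ≤ 2 := by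
      rw [h1]
      refine (Finset.abs_sum_le_sum_abs _ _).trans ((Finset.sum_le_sum h2).trans ?_)
      rw [Finset.sum_add_distrib, ← Finset.sum_mul, sum_range_cast]
      have h4 : ∑ j ∈ range u, (if j = n then (1 : ℝ) else 0) ≤ 1 := by
        rw [Finset.sum_ite_eq']
        split_ifs <;> norm_num
      have h5 : (u : ℝ) * (u - 1) / 2 * (2 / (u : ℝ) ^ 2) ≤ 1 := by
        rw [div_mul_div_comm, div_le_one (by positivity)]
        nlinarith
      linarith
    rw [abs_mul, abs_of_pos (by positivity : (0 : ℝ) < (u : ℝ) ^ 2)] at h3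
    rw [le_div_iff₀ (by positivity)]
    linarith

theorem abs_g_decay (u : ℕ) (hu : 0 < u) (r : ℕ) :
    ∀ i : ℤ, 1 + (r : ℤ) * u ≤ i → |g u i| ≤ 2 / (u : ℝ) ^ 2 * (1 / 2) ^ r := by
  have hu' : (1 : ℝ) ≤ u := by exact_mod_cast hu
  induction r with
  | zero =>
    intro i hi
    have h := abs_g_base u hu (i - 1).toNat
    rw [show (((i - 1).toNat : ℕ) : ℤ) + 1 = i from by omega] at h
    simpa using h
  | succ r ih =>
    intro i hi
    have hi' : 1 + (r : ℤ) * u + u ≤ i := by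
      have : 1 + ((r + 1 : ℕ) : ℤ) * u = 1 + (r : ℤ) * u + u := by push_cast; ring
      omega
    have hru : (0 : ℤ) ≤ (r : ℤ) * u := by positivity
    have h1 := step_g u hu (i := i) (by omega)
    set B := 2 / (u : ℝ) ^ 2 * (1 / 2) ^ r with hB
    have hB0 : 0 ≤ B := by positivity
    have h2 : ∀ j ∈ range u, |(j : ℝ) * g u (i - 1 - j)| ≤ (j : ℝ) * B := by
      intro j hj
      rw [Finset.mem_range] at hj
      rw [abs_mul, abs_of_nonneg (by positivity : (0 : ℝ) ≤ j)]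
      exact mul_le_mul_of_nonneg_left (ih _ (by omega)) (by positivity)
    have h3 : |(u : ℝ) ^ 2 * g u i| ≤ (u : ℝ) ^ 2 * (B / 2) := by
      rw [h1]
      refine (Finset.abs_sum_le_sum_abs _ _).trans ((Finset.sum_le_sum h2).trans ?_)
      rw [← Finset.sum_mul, sum_range_cast]
      nlinarith
    rw [abs_mul, abs_of_pos (by positivity : (0 : ℝ) < (u : ℝ) ^ 2)] at h3
    have h4 := le_of_mul_le_mul_left h3 (by positivity)
    rw [pow_succ]
    calc |g u i| ≤ B / 2 := h4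
      _ = 2 / (u : ℝ) ^ 2 * ((1 / 2) ^ r * (1 / 2)) := by rw [hB]; ring

end MP49858b
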